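import Mathlib

namespace Pool.Agent.H.MP_ad6ded_lc

def alt (m : ℕ) : ℤ := if _h : m = 0 then 0 else (m % 2 : ℕ) - alt (m / 2)
decreasing_by omega

lemma alt_zero : alt 0 = 0 := by rw [alt]; simp

lemma alt_step (m b : ℕ) (hb : b < 2) : alt (2 * m + b) = b - alt m := by
  rw [alt]
  split_ifs with h
  · obtain rfl : m = 0 := by omega
    obtain rfl : b = 0 := by omega
    simp [alt_zero]
  · rw [show (2 * m + b) / 2 = m by omega, show (2 * m + b) % 2 = b by omega]

def dl (m : ℕ) : ℤ := alt (m + 1) - alt m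

lemma dl_even (j : ℕ) : dl (2 * j) = 1 := by
  have h1 := alt_step j 0 (by norm_num)
  have h2 := alt_step j 1 (by norm_num)
  simp only [add_zero] at h1
  rw [dl, h1, h2]; simp

lemma dl_odd (j : ℕ) : dl (2 * j + 1) = -1 - dl j := by
  have h1 := alt_step (j + 1) 0 (by norm_num)
  have h2 := alt_step j 1 (by norm_num)
  rw [dl, dl, show 2 * j + 1 + 1 = 2 * (j + 1) + 0 by ring, h1, h2]; push_cast; ring

lemma dl_cases (m : ℕ) : dl m = 1 ∨ dl m = -2 := by
  induction m using Nat.strong_induction_on with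
  | _ m ih =>
    rcases Nat.even_or_odd' m with ⟨j, rfl | rfl⟩
    · exact Or.inl (dl_even j)
    · rw [dl_odd]; rcases ih j (by omega) with h | h <;> omega

lemma alt_abs (m : ℕ) : |alt m| ≤ m := by
  induction m using Nat.strong_induction_on with
  | _ m ih =>
    rcases Nat.eq_zero_or_pos m with rfl | hm
    · simp [alt_zero]
    · have h := ih (m / 2) (by omega)
      rw [← Nat.div_add_mod m 2, alt_step _ _ (by omega)]
      rw [abs_le] at *
      omega

lemma alt_add (s : ℕ) : ∀ c t, t < 2 ^ s → alt (2 ^ s * c + t) = alt t + (-1) ^ s * alt c := by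
  induction s with
  | zero =>
    intro c t ht
    obtain rfl : t = 0 := by omega
    simp [alt_zero]
  | succ s ih =>
    intro c t ht
    have h1 : 2 ^ (s + 1) * c + t = 2 * (2 ^ s * c + t / 2) + t % 2 := by
      rw [pow_succ, mul_add, mul_comm (2 ^ s) 2, mul_assoc]; omega
    rw [h1, alt_step _ _ (by omega), ih c _ (by rw [pow_succ] at ht; omega)]
    conv_rhs => rw [← Nat.div_add_mod t 2, alt_step _ _ (by omega)]
    ring

def P : ℕ → ℕ
  | 0 => 0
  | m + 1 => P m + if dl m = 1 then 2 else 3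

lemma P_eq (m : ℕ) : 3 * (P m : ℤ) = 7 * m - alt m := by
  induction m with
  | zero => simp [P, alt_zero]
  | succ m ih =>
    have h := dl_cases m
    have e : alt (m + 1) = alt m + dl m := by rw [dl]; ring
    rw [P, e]
    split_ifs <;> push_cast <;> omega

lemma P_add (m j : ℕ) : P m + 2 * j ≤ P (m + j) ∧ P (m + j) ≤ P m + 3 * j := by
  induction j with
  | zero => simp
  | succ j ih => rw [← add_assoc, P]; split_ifs <;> omega

lemma P_mono : StrictMono P := strictMono_nat_of_lt_succ fun m => by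
  have := (P_add m 1).1; omega

def One (n : ℕ) : Prop := ∃ m, P m = n

lemma one_iff (t : ℕ) : One (P t + 2) ↔ dl t = 1 := by
  constructor
  · rintro ⟨m, hm⟩
    by_contra h
    have h1 : P (t + 1) = P t + 3 := by rw [P, if_neg h]
    have h2 : t < m := P_mono.lt_iff_lt.1 (by omega)
    have h3 : P (t + 1) ≤ P m := P_mono.monotone h2
    omega
  · intro h
    exact ⟨t + 1, by rw [P, if_pos h]⟩

lemma rigid (N T l m m' : ℕ) (h : ∀ r < l, One (N + r) ↔ One (N + T + r)) (h1 : N ≤ P m)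
    (h2 : P m ≤ N + 2) (h3 : P m' = P m + T) (j : ℕ) (hj : 3 * j + 4 < l) :
    P (m' + j) = P (m + j) + T ∧ dl (m' + j) = dl (m + j) := by
  have key : ∀ j, 3 * j + 4 < l → P (m' + j) = P (m + j) + T → dl (m' + j) = dl (m + j) := by
    intro j hj e
    have a := P_add m j
    have b := h (P (m + j) + 2 - N) (by omega)
    rw [show N + (P (m + j) + 2 - N) = P (m + j) + 2 by omega,
      show N + T + (P (m + j) + 2 - N) = P (m' + j) + 2 by omega, one_iff, one_iff] at b
    rcases dl_cases (m + j) with c | c <;> rcases dl_cases (m' + j) with d | d <;>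
      simp_all
  induction j with
  | zero => exact ⟨h3, key 0 hj h3⟩
  | succ j ih =>
    obtain ⟨a, b⟩ := ih (by omega)
    have e : P (m' + (j + 1)) = P (m + (j + 1)) + T := by
      rw [← add_assoc, ← add_assoc, P, P, a, b]; ring
    exact ⟨e, key _ hj e⟩

lemma recog (s : ℕ) : ∀ m m' : ℕ, (∀ j < 2 ^ (s + 1), dl (m' + j) = dl (m + j)) →
    m % 2 ^ s = m' % 2 ^ s := by
  induction s with
  | zero => intro m m' _; omega
  | succ s ih =>
    intro m m' h
    have h4 : 4 ≤ 2 ^ (s + 1 + 1) := by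
      have : 0 < 2 ^ s := by positivity
      rw [pow_succ, pow_succ]; omega
    have hp : m % 2 = m' % 2 := by
      by_contra hne
      have h1 : ∀ j < 4, dl (m + j) = 1 := by
        intro j hj
        by_cases h2 : (m + j) % 2 = 0
        · rw [show m + j = 2 * ((m + j) / 2) by omega, dl_even]
        · rw [← h j (by omega), show m' + j = 2 * ((m' + j) / 2) by omega, dl_even]
      have h2 := h1 ((5 - m % 4) % 4) (by omega)
      rw [show m + (5 - m % 4) % 4 = 2 * (2 * ((m + (5 - m % 4) % 4) / 4)) + 1 by omega,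
        dl_odd, dl_even] at h2
      omega
    have h5 := ih (m / 2) (m' / 2) fun j hj => by
      have h2 := h (2 * j + 1 - m % 2) (by rw [pow_succ]; omega)
      rw [show m' + (2 * j + 1 - m % 2) = 2 * (m' / 2 + j) + 1 by omega,
        show m + (2 * j + 1 - m % 2) = 2 * (m / 2 + j) + 1 by omega, dl_odd, dl_odd] at h2
      omega
    rw [pow_succ', Nat.mod_mul, Nat.mod_mul, hp, h5]

lemma first (N : ℕ) : ∃ m, N ≤ P m ∧ P m ≤ N + 2 := by
  induction N with
  | zero => exact ⟨0, by simp [P]⟩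
  | succ N ih =>
    obtain ⟨m, h1, h2⟩ := ih
    by_cases h : N + 1 ≤ P m
    · exact ⟨m, h, by omega⟩
    · have := P_add m 1
      exact ⟨m + 1, by omega, by omega⟩

def V (k q q' u : ℕ) (D : ℤ) : Prop :=
  |D| ≤ 30 * (q' + 2) ∧ ∃ s : ℕ, k ^ u ≤ 15 * 2 ^ s ∧ (2 : ℤ) ^ s ∣ 3 * k ^ u * (q' - q) + D

lemma step (k q q' u : ℕ) (hq : q < q') (hu : 20 ≤ k ^ u)
    (h : ∀ r < k ^ u, One (k ^ u * q + r) ↔ One (k ^ u * q' + r)) :
    ∃ m m', k ^ u * q ≤ P m ∧ P m ≤ k ^ u * q + 2 ∧
      3 * (k : ℤ) ^ u * (q' - q) + (alt m' - alt m) = 7 * (m' - m) ∧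
      V k q q' u (alt m' - alt m) := by
  obtain ⟨d, rfl⟩ := Nat.exists_eq_add_of_le hq.le
  generalize hl : k ^ u = l at *
  obtain ⟨m, h1, h2⟩ := first (l * q)
  rw [mul_add] at h
  obtain ⟨m', h3⟩ := (h (P m - l * q) (by omega)).1 ⟨m, by omega⟩
  have h3' : P m' = P m + l * d := by omega
  have e1 := P_eq m
  have e2 := P_eq m'
  have e3 : 3 * (k : ℤ) ^ u * ((q + d : ℕ) - q) + (alt m' - alt m) = 7 * (m' - m) := by
    rw [h3'] at e2
    have : (k : ℤ) ^ u = l := by exact_mod_cast hl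
    rw [this]
    push_cast at e2 ⊢
    linarith
  obtain ⟨s, hs1, hs2⟩ : ∃ s, 6 * 2 ^ s + 4 < l ∧ l ≤ 15 * 2 ^ s := by
    refine ⟨Nat.log 2 ((l - 5) / 6), ?_, ?_⟩
    · have := Nat.pow_log_le_self 2 (x := (l - 5) / 6) (by omega)
      omega
    · have h5 := Nat.lt_pow_succ_log_self (b := 2) (by norm_num) ((l - 5) / 6)
      have h6 : 1 ≤ Nat.log 2 ((l - 5) / 6) := Nat.log_pos (by norm_num) (by omega)
      have h7 : 2 ^ 1 ≤ 2 ^ Nat.log 2 ((l - 5) / 6) := Nat.pow_le_pow_right (by norm_num) h6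
      rw [pow_succ] at h5
      omega
  have hmod := recog s m m' fun j hj =>
    (rigid (l * q) (l * d) l m m' h h1 h2 h3' j (by rw [pow_succ] at hj; omega)).2
  have hpos : 0 < 2 ^ s := by positivity
  refine ⟨m, m', h1, h2, e3, ?_, s, hl ▸ hs2, ?_⟩
  · have a1 := alt_add s (m / 2 ^ s) (m % 2 ^ s) (Nat.mod_lt _ hpos)
    have a2 := alt_add s (m' / 2 ^ s) (m' % 2 ^ s) (Nat.mod_lt _ hpos)
    rw [Nat.div_add_mod] at a1 a2
    have b1 := alt_abs (m / 2 ^ s)
    have b2 := alt_abs (m' / 2 ^ s)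
    have c : ∀ x, P x ≤ l * (q + d) + 2 → x / 2 ^ s ≤ 15 * (q + d + 2) := by
      intro x hx
      have c1 := (P_add 0 x).1
      rw [zero_add] at c1
      refine Nat.div_le_of_le_mul ?_
      nlinarith
    have c1 := c m (by rw [mul_add]; omega)
    have c2 := c m' (by rw [mul_add]; omega)
    rw [a1, a2, hmod]
    rw [abs_le] at *
    rcases neg_one_pow_eq_or ℤ s with e | e <;> rw [e] <;> push_cast <;> omega
  · rw [e3]
    refine Dvd.dvd.mul_left ?_ 7
    have := (Nat.modEq_iff_dvd.1 hmod)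
    exact_mod_cast this

lemma V_next (k q q' u : ℕ) (hk : 2 ≤ k) (hu : 15 * ((k + 1) * (30 * (q' + 2))) < k ^ u)
    (D D' : ℤ) (h : V k q q' u D) (h' : V k q q' (u + 1) D') : D' = k * D := by
  obtain ⟨b, s, hs, hd⟩ := h
  obtain ⟨b', s', hs', hd'⟩ := h'
  have h1 : (2 : ℤ) ^ min s s' ∣ D' - k * D := by
    have a := ((pow_dvd_pow 2 (min_le_left s s')).trans hd).mul_right k
    have a' := (pow_dvd_pow 2 (min_le_right s s')).trans hd'
    have a2 := a'.sub a
    rwa [show 3 * (k : ℤ) ^ (u + 1) * (q' - q) + D' - (3 * k ^ u * (q' - q) + D) * k = D' - k * D by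
      ring] at a2
  have h2 : k ^ u ≤ 15 * 2 ^ min s s' := by
    rcases min_choice s s' with e | e <;> rw [e]
    · exact hs
    · exact le_trans (Nat.pow_le_pow_right (by omega) (by omega)) hs'
  have h3 : (k + 1) * (30 * (q' + 2)) < 2 ^ min s s' := by omega
  have h4 : ((k : ℤ) + 1) * (30 * (q' + 2)) < 2 ^ min s s' := by exact_mod_cast h3
  refine sub_eq_zero.1 (Int.eq_zero_of_abs_lt_dvd h1 (lt_of_le_of_lt ?_ h4))
  refine (abs_sub _ _).trans ?_
  rw [abs_mul, Nat.abs_cast]
  nlinarith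

def Ns : ℕ → ℕ
  | 0 => 0
  | s + 1 => 64 * Ns s + 7

lemma alt_Ns (s : ℕ) : alt (3 * Ns s) = 3 * s := by
  induction s with
  | zero => simp [Ns, alt_zero]
  | succ s ih =>
    have h21 : alt 21 = 3 := by simp [alt]
    rw [Ns, show 3 * (64 * Ns s + 7) = 2 ^ 6 * (3 * Ns s) + 21 by ring,
      alt_add _ _ _ (by norm_num), ih, h21]
    push_cast; ring

lemma Ns_mono : StrictMono Ns := strictMono_nat_of_lt_succ fun s => by rw [Ns]; omega

lemma main (k : ℕ) (hk : 2 ≤ k) (s s' : ℕ) (hs : s < s')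
    (h : ∀ u, ∀ r < k ^ u, One (k ^ u * (7 * Ns s) + r) ↔ One (k ^ u * (7 * Ns s') + r)) :
    False := by
  have hq : 7 * Ns s < 7 * Ns s' := by have := Ns_mono hs; omega
  set q := 7 * Ns s with hq1
  set q' := 7 * Ns s' with hq2
  set u0 := 15 * ((k + 1) * (30 * (q' + 2))) + 20 + s with hu0
  have hbig : ∀ u, u0 ≤ u → u0 < k ^ u := fun u hu =>
    lt_of_le_of_lt hu (Nat.lt_pow_self (by omega))
  have hz : ∀ u, u0 ≤ u → ∀ D, V k q q' u D → D = 0 := by
    intro u hu D hD
    have h1 : ∀ j, V k q q' (u + j) (k ^ j * D) := by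
      intro j
      induction j with
      | zero => simpa using hD
      | succ j ih =>
        obtain ⟨m, m', -, -, -, hV⟩ := step k q q' (u + (j + 1)) hq
          (by have := hbig (u + (j + 1)) (by omega); omega) (h _)
        have := V_next k q q' (u + j) hk (by have := hbig (u + j) (by omega); omega) _ _ ih hV
        rw [this] at hV
        rw [pow_succ', mul_assoc]
        exact hV
    by_contra hne
    have h2 := (h1 (30 * (q' + 2))).1
    rw [abs_mul, abs_pow, Nat.abs_cast] at h2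
    have h3 : (1 : ℤ) ≤ |D| := Int.one_le_abs hne
    have h4 : 30 * (q' + 2) < k ^ (30 * (q' + 2)) := Nat.lt_pow_self (by omega)
    have h5 : 30 * ((q' : ℤ) + 2) < k ^ (30 * (q' + 2)) := by exact_mod_cast h4
    nlinarith
  obtain ⟨a, k', hodd, hk'⟩ := Nat.exists_eq_two_pow_mul_odd (n := k) (by omega)
  have hk1 : k' = 1 := by
    by_contra hne
    have h3 : 2 ≤ k' := by have := hodd.pos; omega
    obtain ⟨m, m', -, -, -, hV⟩ := step k q q' u0 hq (by have := hbig u0 le_rfl; omega) (h _)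
    have h0 := hz u0 le_rfl _ hV
    rw [h0] at hV
    obtain ⟨-, t, ht, hd⟩ := hV
    obtain ⟨d, hd'⟩ := Nat.exists_eq_add_of_lt hq
    have hd2 : 2 ^ t ∣ (2 ^ a) ^ u0 * (d + 1) * (3 * k' ^ u0) := by
      have : ((2 ^ t : ℕ) : ℤ) ∣ (((2 ^ a) ^ u0 * (d + 1) * (3 * k' ^ u0) : ℕ) : ℤ) := by
        push_cast
        convert hd using 1
        rw [hd', hk']; push_cast; ring
      exact_mod_cast this
    have hc : Nat.Coprime (2 ^ t) (3 * k' ^ u0) :=
      Nat.Coprime.pow_left _ ((Nat.coprime_two_left).2 ((by decide : Odd 3).mul hodd.pow))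
    have h4 := Nat.le_of_dvd (by positivity) (hc.dvd_of_dvd_mul_right hd2)
    rw [hk', mul_pow] at ht
    have h5 : k' ^ u0 ≤ 15 * (d + 1) := by
      refine le_of_mul_le_mul_left (a := (2 ^ a) ^ u0) ?_ (by positivity)
      nlinarith
    have h6 : u0 < k' ^ u0 := Nat.lt_pow_self (by omega)
    nlinarith
  obtain ⟨m, m', h1, h2, h3, hV⟩ := step k q q' (2 * u0) hq
    (by have := hbig (2 * u0) (by omega); omega) (h _)
  have h0 := hz (2 * u0) (by omega) _ hV
  have hb := hbig (2 * u0) (by omega)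
  have e : k ^ (2 * u0) = 2 ^ (2 * (a * u0)) := by rw [hk', hk1, mul_one, ← pow_mul]; ring_nf
  have e' : (k : ℤ) ^ (2 * u0) = 2 ^ (2 * (a * u0)) := by exact_mod_cast e
  rw [e] at h1 h2 hb
  rw [e', h0] at h3
  have ha : ∀ M c, c < 2 ^ (2 * (a * u0)) →
      alt (2 ^ (2 * (a * u0)) * M + c) = alt c + alt M := by
    intro M c hc
    rw [alt_add _ _ _ hc, pow_mul]; simp
  have h4 := P_eq (2 ^ (2 * (a * u0)) * (3 * Ns s))
  have h5 := ha (3 * Ns s) 0 (by omega)
  rw [add_zero, alt_zero, zero_add, alt_Ns] at h5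
  rw [h5] at h4
  have hL : ((2 : ℤ) ^ (2 * (a * u0))) = ((2 ^ (2 * (a * u0)) : ℕ) : ℤ) := by push_cast; rfl
  rw [hL] at h3
  generalize 2 ^ (2 * (a * u0)) = L at *
  have h6 : P (L * (3 * Ns s)) + s = L * q := by
    zify; rw [hq1]; push_cast at h4 ⊢; linarith
  obtain ⟨c, rfl⟩ : ∃ c, m = L * (3 * Ns s) + c :=
    Nat.exists_eq_add_of_le (P_mono.le_iff_le.1 (by omega))
  have h7 := (P_add (L * (3 * Ns s)) c).1
  have h8 : m' = L * (3 * Ns s') + c := by
    zify; rw [hq1, hq2] at h3; push_cast at h3 ⊢; linarith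
  rw [h8, ha _ _ (by omega), ha _ _ (by omega), alt_Ns, alt_Ns] at h0
  omega

def X : ℕ → List ℕ
  | 0 => [1, 2]
  | n + 1 => X n ++ X n ++ (X n).reverse ++ (X n).reverse ++ [2]

def blk (t : ℕ) : List ℕ := if dl t = 1 then [1, 2] else [1, 2, 2]

def W (c m : ℕ) : List ℕ := (List.range m).flatMap (fun t => blk (c + t))

lemma W_succ (c m : ℕ) : W c (m + 1) = W c m ++ blk (c + m) := by
  simp [W, List.range_succ, List.flatMap_append]

lemma W_add (c m j : ℕ) : W c (m + j) = W c m ++ W (c + m) j := by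
  induction j with
  | zero => simp [W]
  | succ j ih => rw [← add_assoc, W_succ, W_succ, ih, List.append_assoc, add_assoc]

lemma W_len (m : ℕ) : (W 0 m).length = P m := by
  induction m with
  | zero => rfl
  | succ m ih =>
    rw [W_succ, List.length_append, ih, P, zero_add, blk]
    split_ifs <;> rfl

lemma W_one (m : ℕ) : ∀ i < P m, ((W 0 m).getD i 0 = 1 ↔ One i) := by
  induction m with
  | zero => intro i hi; simp [P] at hi
  | succ m ih =>
    intro i hi
    rw [W_succ, zero_add]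
    by_cases h : i < P m
    · rw [List.getD_append _ _ _ _ (by rwa [W_len]), ih i h]
    · rw [List.getD_append_right _ _ _ _ (by rw [W_len]; omega), W_len]
      have h1 : One i ↔ i = P m := by
        constructor
        · rintro ⟨t, rfl⟩
          have a : t < m + 1 := P_mono.lt_iff_lt.1 hi
          have b : m ≤ t := P_mono.le_iff_le.1 (by omega)
          rw [show t = m by omega]
        · rintro rfl; exact ⟨m, rfl⟩
      obtain ⟨r, rfl⟩ : ∃ r, i = P m + r := ⟨i - P m, by omega⟩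
      rw [h1, Nat.add_sub_cancel_left, blk]
      rw [P] at hi
      split_ifs at hi ⊢
      · have : r < 2 := by omega
        interval_cases r <;> simp
      · have : r < 3 := by omega
        interval_cases r <;> simp

lemma W_shift (n c : ℕ) :
    W (4 ^ n * c) (4 ^ n) = W 0 (4 ^ n - 1) ++ blk c := by
  have e : 4 ^ n = 2 ^ (2 * n) := by rw [pow_mul]; norm_num
  obtain ⟨m, hm⟩ : ∃ m, 4 ^ n = m + 1 := ⟨4 ^ n - 1, by
    have : 0 < 4 ^ n := by positivity
    omega⟩
  have ha : ∀ M t, t < 4 ^ n → alt (4 ^ n * M + t) = alt t + alt M := by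
    intro M t ht
    rw [e] at ht ⊢
    rw [alt_add _ _ _ ht, pow_mul]; simp
  have h1 : W (4 ^ n * c) m = W 0 m := by
    unfold W
    refine List.flatMap_congr fun t ht => ?_
    have ht' : t < m := List.mem_range.1 ht
    have : dl (4 ^ n * c + t) = dl t := by
      rw [dl, dl, add_assoc, ha _ _ (by omega), ha _ _ (by omega), add_sub_add_right_eq_sub]
    simp only [blk, zero_add, this]
  have h2 : dl (4 ^ n * c + m) = dl c := by
    have a1 := ha (c + 1) 0 (by omega)
    have a2 := ha 1 0 (by omega)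
    have a3 := ha c m (by omega)
    have a4 : alt m = 0 := by
      clear a1 a2 a3 h1 ha e
      induction n generalizing m with
      | zero =>
        obtain rfl : m = 0 := by omega
        exact alt_zero
      | succ n ih =>
        have hp : 0 < 4 ^ n := by positivity
        rw [show m = 2 * (2 * (4 ^ n - 1) + 1) + 1 by rw [pow_succ] at hm; omega,
          alt_step _ _ (by norm_num), alt_step _ _ (by norm_num), ih (4 ^ n - 1) (by omega)]
        simp
    rw [dl, dl, a3, show 4 ^ n * c + m + 1 = 4 ^ n * (c + 1) + 0 by rw [mul_add]; omega, a1, a4,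
      alt_zero]
    ring
  nth_rw 2 [hm]
  rw [W_succ, h1, blk, blk, h2, hm, Nat.add_sub_cancel]

lemma X_eq (n : ℕ) : X n = W 0 (4 ^ n) ∧ ∃ Y, X n = Y ++ [2] ∧ Y.reverse = Y := by
  have b0 : blk 0 = [1, 2] := if_pos (dl_even 0)
  have b1 : blk 1 = [1, 2, 2] := if_neg (by rw [show 1 = 2 * 0 + 1 from rfl, dl_odd, dl_even 0]; omega)
  have b2 : blk 2 = [1, 2] := if_pos (dl_even 1)
  have b3 : blk 3 = [1, 2] := if_pos (by
    rw [show 3 = 2 * (2 * 0 + 1) + 1 from rfl, dl_odd, dl_odd, dl_even 0]; omega)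
  induction n with
  | zero => exact ⟨by simp [X, W, b0], [1], rfl, rfl⟩
  | succ n ih =>
    obtain ⟨h1, Y, h2, h3⟩ := ih
    have s0 := W_shift n 0
    have s1 := W_shift n 1
    have s2 := W_shift n 2
    have s3 := W_shift n 3
    rw [mul_zero, ← h1, b0] at s0
    rw [b1] at s1
    rw [b2, ← s0] at s2
    rw [b3, ← s0] at s3
    have s1' : W (4 ^ n * 1) (4 ^ n) = X n ++ [2] := by rw [s1, s0]; simp
    constructor
    · rw [show 4 ^ (n + 1) = 4 ^ n + 4 ^ n + 4 ^ n + 4 ^ n by ring, W_add, W_add, W_add, ← h1,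
        show 0 + 4 ^ n = 4 ^ n * 1 by ring, s1', show 0 + (4 ^ n + 4 ^ n) = 4 ^ n * 2 by ring, s2,
        show 0 + (4 ^ n + 4 ^ n + 4 ^ n) = 4 ^ n * 3 by ring, s3, X, h2]
      simp [h3]
    · exact ⟨Y ++ [2] ++ Y ++ [2, 2] ++ Y ++ [2] ++ Y, by rw [X, h2]; simp [h3], by simp [h3]⟩

end Pool.Agent.H.MP_ad6ded_lc
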